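import Pool.Agent.Helper20.KP.StH
import Pool.Agent.Helper45.FatHilb

/-! Project KP, module HHP: dimension of the space of homogeneous polynomials (helper33). -/

set_option autoImplicit false

namespace Pool.Agent.Helper33.KP

open MeasureTheory Filter Pool.Agent.Helper52.KP Pool.Agent.Helper20.KP
open scoped Topology

private lemma ratio_tendsto (g : ℕ → ℕ) (c : ℝ) (hg : ∀ k : ℕ, |(g k : ℝ) - k| ≤ c) :
    Tendsto (fun k : ℕ => (g k : ℝ) / k) atTop (𝓝 1) := by
  have h1 : Tendsto (fun k : ℕ => c / (k : ℝ)) atTop (𝓝 0) :=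
    tendsto_const_div_atTop_nhds_zero_nat c
  rw [tendsto_iff_norm_sub_tendsto_zero]
  refine squeeze_zero' (Eventually.of_forall fun k => norm_nonneg _) ?_ h1
  filter_upwards [eventually_gt_atTop 0] with k hk
  have hk' : (0 : ℝ) < k := Nat.cast_pos.mpr hk
  have h2 : (g k : ℝ) / k - 1 = ((g k : ℝ) - k) / k := by
    field_simp
  rw [h2, norm_div, Real.norm_eq_abs, Real.norm_eq_abs, abs_of_pos hk']
  gcongr
  exact hg k

private lemma choose_tendsto (f : ℕ → ℕ) (c : ℝ) (hf : ∀ k : ℕ, |(f k : ℝ) - k| ≤ c) (M : ℕ) :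
    Tendsto (fun k : ℕ => ((f k).choose M : ℝ) / (k : ℝ) ^ M) atTop (𝓝 (1 / M.factorial)) := by
  have h1 : ∀ i : ℕ, Tendsto (fun k : ℕ => ((f k - i : ℕ) : ℝ) / k) atTop (𝓝 1) := by
    intro i
    refine ratio_tendsto (fun k => f k - i) (c + i) fun k => ?_
    have h2 := abs_le.mp (hf k)
    have hi : (0 : ℝ) ≤ i := Nat.cast_nonneg i
    have h3 : ((f k - i : ℕ) : ℝ) ≤ f k := by exact_mod_cast Nat.sub_le _ _
    have h4 : (f k : ℝ) ≤ ((f k - i : ℕ) : ℝ) + i := by
      have : f k ≤ (f k - i) + i := by omega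
      exact_mod_cast this
    rw [abs_le]
    constructor <;> linarith [h2.1, h2.2]
  have h2 : Tendsto (fun k : ℕ => ∏ i ∈ Finset.range M, ((f k - i : ℕ) : ℝ) / k) atTop (𝓝 1) := by
    have := tendsto_finsetProd (Finset.range M) (fun i _ => h1 i)
    simpa using this
  have h3 : (fun k : ℕ => ((f k).choose M : ℝ) / (k : ℝ) ^ M) =
      fun k => (∏ i ∈ Finset.range M, ((f k - i : ℕ) : ℝ) / k) * (1 / M.factorial) := by
    funext k
    rw [Finset.prod_div_distrib, Finset.prod_const, Finset.card_range, ← Nat.cast_prod,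
      ← Nat.descFactorial_eq_prod_range, Nat.descFactorial_eq_factorial_mul_choose, Nat.cast_mul]
    have : (M.factorial : ℝ) ≠ 0 := Nat.cast_ne_zero.mpr (Nat.factorial_ne_zero M)
    field_simp
  rw [h3]
  simpa using h2.mul_const (1 / (M.factorial : ℝ))

theorem hHHP : StHHP := by
  intro m hm
  refine ⟨fun k => ⟨Pool.Agent.Helper45.finite_homog k, ?_⟩, fun j => ?_, fun j => ?_⟩
  · rw [Pool.Agent.Helper45.finrank_homog, Fintype.card_fin]
    have h1 : k + m - 1 = k + (m - 1) := by omega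
    have h2 : m + k - 1 = k + (m - 1) := by omega
    rw [h1, h2]
    exact Nat.choose_symm_of_eq_add (by omega)
  · refine choose_tendsto (fun k => k + j + m - 1) (j + m) (fun k => ?_) (m - 1)
    have h1 : ((k + j + m - 1 : ℕ) : ℝ) = k + j + m - 1 := by
      rw [Nat.cast_sub (by omega)]
      push_cast
      ring
    have hm1 : (1 : ℝ) ≤ m := by exact_mod_cast hm
    have hj : (0 : ℝ) ≤ j := Nat.cast_nonneg j
    rw [h1, abs_le]
    constructor <;> linarith
  · refine choose_tendsto (fun k => k - j + m - 1) (j + m) (fun k => ?_) (m - 1)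
    have h1 : ((k - j + m - 1 : ℕ) : ℝ) = ((k - j : ℕ) : ℝ) + m - 1 := by
      rw [Nat.cast_sub (by omega)]
      push_cast
      ring
    have hm1 : (1 : ℝ) ≤ m := by exact_mod_cast hm
    have hj : (0 : ℝ) ≤ j := Nat.cast_nonneg j
    have h3 : ((k - j : ℕ) : ℝ) ≤ k := by exact_mod_cast Nat.sub_le _ _
    have h4 : (k : ℝ) ≤ ((k - j : ℕ) : ℝ) + j := by
      have : k ≤ (k - j) + j := by omega
      exact_mod_cast this
    rw [h1, abs_le]
    constructor <;> linarith

end Pool.Agent.Helper33.KP
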