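import Pool.Agent.Helper52.KP.StL
import Pool.Agent.Helper88.JT.Holo

/-! # Project KP, module AVG: averaging over the circle -/

set_option autoImplicit false

namespace Pool.Agent.Helper33.KP

open MeasureTheory Filter Topology Metric
open Pool.Agent.Helper52.KP

private theorem fact1 : Fact ((0 : ℝ) < 1) := ⟨one_pos⟩

attribute [local instance] fact1

/-- the parameter of the circle -/
private noncomputable def cc (t : AddCircle (1 : ℝ)) : ℂ := (AddCircle.toCircle t : ℂ)

private noncomputable abbrev mu : Measure (AddCircle (1 : ℝ)) := AddCircle.haarAddCircle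

private lemma cc_add (s t : AddCircle (1 : ℝ)) : cc (s + t) = cc s * cc t := by
  unfold cc
  rw [AddCircle.toCircle_add]
  rfl

private lemma cc_norm (t : AddCircle (1 : ℝ)) : ‖cc t‖ = 1 := by
  unfold cc
  exact Circle.norm_coe _

private lemma cc_ne (t : AddCircle (1 : ℝ)) : cc t ≠ 0 := by
  intro h
  have := cc_norm t
  rw [h, norm_zero] at this
  exact zero_ne_one this

private lemma continuous_cc : Continuous cc :=
  continuous_subtype_val.comp AddCircle.continuous_toCircle

private lemma cc_surj {c : ℂ} (hc : ‖c‖ = 1) : ∃ t, cc t = c := by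
  have h : c ∈ Submonoid.unitSphere ℂ := by
    rw [Submonoid.unitSphere]
    simpa using hc
  refine ⟨(AddCircle.homeomorphCircle (one_ne_zero : (1 : ℝ) ≠ 0)).symm ⟨c, h⟩, ?_⟩
  unfold cc
  rw [← AddCircle.homeomorphCircle_apply one_ne_zero, Homeomorph.apply_symm_apply]

section scl

variable {m : ℕ} (w : Fin m → ℕ)

private lemma scl_scl (c c' : ℂ) (z : Fin m → ℂ) : scl w c (scl w c' z) = scl w (c * c') z := by
  funext j
  simp only [scl, mul_pow]
  ring

/-- `scl w c` as a continuous linear map -/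
private noncomputable def SL (c : ℂ) : (Fin m → ℂ) →L[ℂ] (Fin m → ℂ) :=
  ContinuousLinearMap.pi fun j => (c ^ w j) • ContinuousLinearMap.proj j

private lemma SL_apply (c : ℂ) (z : Fin m → ℂ) : SL w c z = scl w c z := by
  funext j
  simp [SL, scl]

private lemma norm_scl {c : ℂ} (hc : ‖c‖ = 1) (z : Fin m → ℂ) : ‖scl w c z‖ = ‖z‖ := by
  simp only [Pi.norm_def]
  congr 2
  funext j
  apply NNReal.eq
  simp [scl, hc]

private lemma norm_SL {c : ℂ} (hc : ‖c‖ = 1) : ‖SL w c‖ ≤ 1 := by
  refine ContinuousLinearMap.opNorm_le_bound _ zero_le_one fun z => ?_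
  rw [SL_apply, norm_scl w hc, one_mul]

private lemma continuous_scl : Continuous fun x : ℂ × (Fin m → ℂ) => scl w x.1 x.2 := by
  unfold scl
  fun_prop

private lemma continuous_SL : Continuous fun c : ℂ => SL w c := by
  rw [continuous_clm_apply]
  intro z
  simp only [SL_apply]
  exact (continuous_scl w).comp (continuous_id.prodMk continuous_const)

/-- the action of the circle preserves the volume -/
private lemma mp_scl {c : ℂ} (hc : ‖c‖ = 1) :
    MeasurePreserving (scl w c) (volume : Measure (Fin m → ℂ)) volume := by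
  have h : ∀ j : Fin m, MeasurePreserving (fun x : ℂ => c ^ w j * x) volume volume := by
    intro j
    have h1 : c ^ w j ∈ Submonoid.unitSphere ℂ := by
      rw [Submonoid.unitSphere]
      simp [hc]
    exact (rotation (⟨c ^ w j, h1⟩ : Circle)).measurePreserving
  exact volume_preserving_pi h

private lemma emb_scl {c : ℂ} (hc : ‖c‖ = 1) : MeasurableEmbedding (scl w c) := by
  have hc0 : c ≠ 0 := by
    intro h
    rw [h, norm_zero] at hc
    exact zero_ne_one hc
  refine Continuous.measurableEmbedding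
    ((continuous_scl w).comp (continuous_const.prodMk continuous_id)) ?_
  intro x y hxy
  funext j
  have h := congrFun hxy j
  simp only [scl] at h
  exact mul_left_cancel₀ (pow_ne_zero _ hc0) h

end scl

/-- Jensen for the square -/
private lemma norm_integral_sq_le {α : Type*} [MeasurableSpace α] {μ : Measure α}
    [IsProbabilityMeasure μ] {f : α → ℂ} (hf : Integrable f μ)
    (hf2 : Integrable (fun t => ‖f t‖ ^ 2) μ) :
    ‖∫ t, f t ∂μ‖ ^ 2 ≤ ∫ t, ‖f t‖ ^ 2 ∂μ := by
  have h1 : ‖∫ t, f t ∂μ‖ ≤ ∫ t, ‖f t‖ ∂μ := norm_integral_le_integral_norm _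
  set A : ℝ := ∫ t, ‖f t‖ ∂μ with hA
  have h2 : 0 ≤ ∫ t, (‖f t‖ - A) ^ 2 ∂μ := integral_nonneg fun t => sq_nonneg _
  have h3 : ∫ t, (‖f t‖ - A) ^ 2 ∂μ = (∫ t, ‖f t‖ ^ 2 ∂μ) - A ^ 2 := by
    have e1 : ∀ t, (‖f t‖ - A) ^ 2 = ‖f t‖ ^ 2 - (2 * A) * ‖f t‖ + A ^ 2 := fun t => by ring
    simp only [e1]
    have i1 : Integrable (fun t => (2 * A) * ‖f t‖) μ := hf.norm.const_mul _
    have i2 : Integrable (fun t => ‖f t‖ ^ 2 - (2 * A) * ‖f t‖) μ := hf2.sub i1
    rw [integral_add i2 (integrable_const _), integral_sub hf2 i1, integral_const_mul,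
      integral_const, ← hA]
    simp
    ring
  have h4 : ‖∫ t, f t ∂μ‖ ^ 2 ≤ A ^ 2 := by
    have h0 : 0 ≤ ‖∫ t, f t ∂μ‖ := norm_nonneg _
    exact pow_le_pow_left₀ h0 h1 2
  linarith

section main

variable {m : ℕ} (w : Fin m → ℕ) (a : ℕ) (h : (Fin m → ℂ) → ℂ)

/-- the average -/
private noncomputable def av (z : Fin m → ℂ) : ℂ :=
  ∫ t, (cc t ^ a)⁻¹ * h (scl w (cc t) z) ∂mu

private lemma continuous_k : Continuous fun t => (cc t ^ a)⁻¹ :=
  (continuous_cc.pow a).inv₀ fun t => pow_ne_zero _ (cc_ne t)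

private lemma norm_k (t : AddCircle (1 : ℝ)) : ‖(cc t ^ a)⁻¹‖ = 1 := by
  rw [norm_inv, norm_pow, cc_norm, one_pow, inv_one]

private lemma continuous_sclcc : Continuous fun x : (Fin m → ℂ) × AddCircle (1 : ℝ) =>
    scl w (cc x.2) x.1 :=
  (continuous_scl w).comp ((continuous_cc.comp continuous_snd).prodMk continuous_fst)

variable {h}

private lemma differentiable_av (hh : Differentiable ℂ h) : Differentiable ℂ (av w a h) := by
  intro z₀
  obtain ⟨C, hC0, hC⟩ := Pool.Agent.Helper88.JT.exists_bound_fderiv hh (0 : Fin m → ℂ) (‖z₀‖ + 1)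
  have hF : ∀ z : Fin m → ℂ, Continuous fun t => (cc t ^ a)⁻¹ * h (scl w (cc t) z) := fun z =>
    (continuous_k a).mul (hh.continuous.comp
      ((continuous_sclcc w).comp (continuous_const.prodMk continuous_id)))
  refine (hasFDerivAt_integral_of_dominated_of_fderiv_le (𝕜 := ℂ) (μ := mu)
    (F := fun z t => (cc t ^ a)⁻¹ * h (scl w (cc t) z))
    (F' := fun z t => (cc t ^ a)⁻¹ • (fderiv ℂ h (scl w (cc t) z)).comp (SL w (cc t)))
    (bound := fun _ => C) (x₀ := z₀) (s := ball z₀ 1) (ball_mem_nhds z₀ one_pos)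
    ?_ ?_ ?_ ?_ ?_ ?_).differentiableAt
  · exact Eventually.of_forall fun z => (hF z).aestronglyMeasurable
  · exact (hF z₀).integrable_of_hasCompactSupport
      (HasCompactSupport.of_compactSpace _)
  · refine Continuous.aestronglyMeasurable ?_
    refine (continuous_k a).smul (Continuous.clm_comp ?_ ((continuous_SL w).comp continuous_cc))
    exact (Pool.Agent.Helper88.JT.continuous_fderiv hh).comp
      ((continuous_sclcc w).comp (continuous_const.prodMk continuous_id))
  · refine Eventually.of_forall fun t z hz => ?_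
    rw [norm_smul, norm_k, one_mul]
    refine (ContinuousLinearMap.opNorm_comp_le _ _).trans ?_
    have h1 : ‖fderiv ℂ h (scl w (cc t) z)‖ ≤ C := by
      apply hC
      rw [sub_zero, norm_scl w (cc_norm t)]
      rw [mem_ball, dist_eq_norm] at hz
      have h2 : ‖z‖ ≤ ‖z - z₀‖ + ‖z₀‖ := by
        calc ‖z‖ = ‖(z - z₀) + z₀‖ := by rw [sub_add_cancel]
          _ ≤ _ := norm_add_le _ _
      linarith
    calc ‖fderiv ℂ h (scl w (cc t) z)‖ * ‖SL w (cc t)‖ ≤ C * 1 :=
          mul_le_mul h1 (norm_SL w (cc_norm t)) (norm_nonneg _) hC0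
      _ = C := mul_one C
  · exact integrable_const _
  · refine Eventually.of_forall fun t z _ => ?_
    have h1 : HasFDerivAt (fun z => h (scl w (cc t) z))
        ((fderiv ℂ h (scl w (cc t) z)).comp (SL w (cc t))) z := by
      have h2 : HasFDerivAt (fun z => SL w (cc t) z) (SL w (cc t)) z :=
        (SL w (cc t)).hasFDerivAt
      have h3 : HasFDerivAt h (fderiv ℂ h (SL w (cc t) z)) (SL w (cc t) z) :=
        (hh _).hasFDerivAt
      have h4 := h3.comp z h2
      rw [SL_apply] at h4
      refine h4.congr_of_eventuallyEq (Eventually.of_forall fun y => ?_)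
      simp [SL_apply]
    exact h1.const_mul _

variable (h)

private lemma av_hom (c : ℂ) (hc : ‖c‖ = 1) (z : Fin m → ℂ) :
    av w a h (scl w c z) = c ^ a * av w a h z := by
  obtain ⟨t₀, rfl⟩ := cc_surj hc
  unfold av
  have h1 : ∀ t, (cc t ^ a)⁻¹ * h (scl w (cc t) (scl w (cc t₀) z)) =
      cc t₀ ^ a * ((cc (t + t₀) ^ a)⁻¹ * h (scl w (cc (t + t₀)) z)) := by
    intro t
    rw [scl_scl, ← cc_add, cc_add t t₀, mul_pow, mul_inv]
    have h2 : cc t₀ ^ a ≠ 0 := pow_ne_zero _ (cc_ne t₀)
    field_simp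
  simp only [h1]
  rw [integral_const_mul, integral_add_right_eq_self
    (fun t => (cc t ^ a)⁻¹ * h (scl w (cc t) z)) t₀]

end main

theorem hAVG : StAVG := by
  intro m w U hU hinv ψ G h a hψ hG hGm hh hL
  have hcont : Continuous h := hh.continuous
  have hav : Differentiable ℂ (av w a h) := differentiable_av w a hh
  refine ⟨av w a h, hav, fun c z hc => av_hom w a h c hc z, ?_⟩
  have hψm : AEMeasurable ψ (volume.restrict U) := hψ.aemeasurable hU
  have hexpm : AEMeasurable (fun z => Real.exp (-ψ z)) (volume.restrict U) :=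
    Real.measurable_exp.comp_aemeasurable hψm.neg
  -- the densities
  set q : (Fin m → ℂ) → ℝ := fun z => ‖G z - h z‖ ^ 2 * Real.exp (-ψ z) with hq
  set q' : (Fin m → ℂ) → ℝ := fun z => ‖G z - av w a h z‖ ^ 2 * Real.exp (-ψ z) with hq'
  set R : (Fin m → ℂ) → AddCircle (1 : ℝ) → ℝ :=
    fun z t => ‖cc t ^ a * G z - h (scl w (cc t) z)‖ ^ 2 * Real.exp (-ψ z) with hR
  have hq0 : ∀ z, 0 ≤ q z := fun z => by positivity
  have hq'0 : ∀ z, 0 ≤ q' z := fun z => by positivity
  have hR0 : ∀ z t, 0 ≤ R z t := fun z t => by positivity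
  -- measurability
  have hq'm : AEStronglyMeasurable (fun z => G z - av w a h z) (volume.restrict U) :=
    hGm.sub hav.continuous.aestronglyMeasurable
  have hRm : AEMeasurable (Function.uncurry fun z t => ENNReal.ofReal (R z t))
      ((volume.restrict U).prod mu) := by
    refine ENNReal.measurable_ofReal.comp_aemeasurable ?_
    have h1 : AEStronglyMeasurable (fun x : (Fin m → ℂ) × AddCircle (1 : ℝ) =>
        cc x.2 ^ a * G x.1 - h (scl w (cc x.2) x.1)) ((volume.restrict U).prod mu) := by
      refine AEStronglyMeasurable.sub (AEStronglyMeasurable.mul ?_ ?_) ?_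
      · exact ((continuous_cc.comp continuous_snd).pow a).aestronglyMeasurable
      · exact hGm.comp_fst
      · exact (hcont.comp (continuous_sclcc w)).aestronglyMeasurable
    have h2 : AEMeasurable (fun x : (Fin m → ℂ) × AddCircle (1 : ℝ) => Real.exp (-ψ x.1))
        ((volume.restrict U).prod mu) := hexpm.comp_fst
    exact (h1.norm.aemeasurable.pow_const 2).mul h2
  -- pointwise estimate
  have hpt : ∀ z ∈ U, ENNReal.ofReal (q' z) ≤ ∫⁻ t, ENNReal.ofReal (R z t) ∂mu := by
    intro z hz
    have hcz : Continuous fun t => cc t ^ a * G z - h (scl w (cc t) z) :=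
      ((continuous_cc.pow a).mul continuous_const).sub (hcont.comp
        ((continuous_sclcc w).comp (continuous_const.prodMk continuous_id)))
    have hRi : Integrable (R z) mu := by
      have : Continuous (R z) := (hcz.norm.pow 2).mul continuous_const
      exact this.integrable_of_hasCompactSupport (HasCompactSupport.of_compactSpace _)
    rw [← ofReal_integral_eq_lintegral_ofReal hRi (Eventually.of_forall (hR0 z))]
    refine ENNReal.ofReal_le_ofReal ?_
    have h1 : G z - av w a h z =
        ∫ t, (cc t ^ a)⁻¹ * (cc t ^ a * G z - h (scl w (cc t) z)) ∂mu := by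
      have h2 : ∀ t, (cc t ^ a)⁻¹ * (cc t ^ a * G z - h (scl w (cc t) z)) =
          G z - (cc t ^ a)⁻¹ * h (scl w (cc t) z) := by
        intro t
        rw [mul_sub, inv_mul_cancel_left₀ (pow_ne_zero _ (cc_ne t))]
      simp only [h2]
      have h3 : Continuous fun t => (cc t ^ a)⁻¹ * h (scl w (cc t) z) :=
        (continuous_k a).mul (hcont.comp
          ((continuous_sclcc w).comp (continuous_const.prodMk continuous_id)))
      rw [integral_sub (integrable_const _)
        (h3.integrable_of_hasCompactSupport (HasCompactSupport.of_compactSpace _)),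
        integral_const]
      simp [av]
    have hfc : Continuous fun t => (cc t ^ a)⁻¹ * (cc t ^ a * G z - h (scl w (cc t) z)) :=
      (continuous_k a).mul hcz
    have h4 := norm_integral_sq_le (μ := mu)
      (hfc.integrable_of_hasCompactSupport (HasCompactSupport.of_compactSpace _))
      ((hfc.norm.pow 2).integrable_of_hasCompactSupport (HasCompactSupport.of_compactSpace _))
    rw [← h1] at h4
    have h5 : ∫ t, R z t ∂mu = (∫ t, ‖(cc t ^ a)⁻¹ *
        (cc t ^ a * G z - h (scl w (cc t) z))‖ ^ 2 ∂mu) * Real.exp (-ψ z) := by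
      rw [← integral_mul_const]
      refine integral_congr_ae (Eventually.of_forall fun t => ?_)
      simp only [hR, norm_mul, norm_k, one_mul]
    rw [h5]
    exact mul_le_mul_of_nonneg_right h4 (Real.exp_pos _).le
  -- rotation of the density
  have hrot : ∀ t, ∫⁻ z in U, ENNReal.ofReal (R z t) = ∫⁻ z in U, ENNReal.ofReal (q z) := by
    intro t
    have h1 : ∫⁻ z in U, ENNReal.ofReal (R z t) =
        ∫⁻ z in U, ENNReal.ofReal (q (scl w (cc t) z)) := by
      refine setLIntegral_congr_fun hU fun z hz => ?_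
      obtain ⟨e1, e2⟩ := hG (cc t) (cc_norm t) z hz
      simp only [hR, hq]
      rw [e1, e2]
    have h2 : scl w (cc t) ⁻¹' U = U := by
      ext z
      exact hinv (cc t) z (cc_norm t)
    have h3 := (mp_scl w (cc_norm t)).setLIntegral_comp_preimage_emb (emb_scl w (cc_norm t))
      (fun z => ENNReal.ofReal (q z)) U
    rw [h2] at h3
    rw [h1, h3]
  have hle : ∫⁻ z in U, ENNReal.ofReal (q' z) ≤ ∫⁻ z in U, ENNReal.ofReal (q z) := by
    calc ∫⁻ z in U, ENNReal.ofReal (q' z)
        ≤ ∫⁻ z in U, (∫⁻ t, ENNReal.ofReal (R z t) ∂mu) := by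
          refine setLIntegral_mono' hU fun z hz => hpt z hz
      _ = ∫⁻ t, (∫⁻ z in U, ENNReal.ofReal (R z t)) ∂mu := lintegral_lintegral_swap hRm
      _ = ∫⁻ _t, (∫⁻ z in U, ENNReal.ofReal (q z)) ∂mu := by
          simp only [hrot]
      _ = ∫⁻ z in U, ENNReal.ofReal (q z) := by
          rw [lintegral_const, measure_univ, mul_one]
  have hqi : IntegrableOn q U := hL.2
  have hfin : ∫⁻ z in U, ENNReal.ofReal (q z) < ⊤ := hqi.lintegral_lt_top
  have hq'ms : AEStronglyMeasurable q' (volume.restrict U) :=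
    ((hq'm.norm.aemeasurable.pow_const 2).mul hexpm).aestronglyMeasurable
  have hq'i : IntegrableOn q' U := by
    refine ⟨hq'ms, ?_⟩
    rw [hasFiniteIntegral_iff_ofReal (Eventually.of_forall hq'0)]
    exact hle.trans_lt hfin
  refine ⟨⟨hq'm, hq'i⟩, ?_⟩
  unfold nrm
  rw [integral_eq_lintegral_of_nonneg_ae (Eventually.of_forall hq'0) hq'ms,
    integral_eq_lintegral_of_nonneg_ae (Eventually.of_forall hq0) hqi.aestronglyMeasurable]
  exact ENNReal.toReal_mono hfin.ne hle

end Pool.Agent.Helper33.KP
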