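import Pool.Agent.Helper85.KP.StE

/-! Project KP, module EHM: conical null sets (helper33). -/

set_option autoImplicit false

namespace Pool.Agent.Helper33.KP

open MeasureTheory Filter Pool.Agent.Helper52.KP Pool.Agent.Helper85.KP

private lemma scl_scl {m : ℕ} (w : Fin m → ℕ) (a b : ℂ) (z : Fin m → ℂ) :
    scl w a (scl w b z) = scl w (a * b) z := by
  funext j
  simp only [scl, mul_pow]
  ring

private lemma scl_one {m : ℕ} (w : Fin m → ℕ) (z : Fin m → ℂ) : scl w 1 z = z := by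
  funext j
  simp [scl]

private lemma scl_diff {m : ℕ} (w : Fin m → ℕ) (a : ℂ) : Differentiable ℝ (scl w a) := by
  refine differentiable_pi.mpr fun j => ?_
  unfold scl
  exact (differentiable_const _).mul (differentiable_apply j)

theorem hEHM : StEHM := by
  intro C hC E hEU hcon hnull
  have h1 : E ⊆ ⋃ q : ℕ, scl C.w ((q + 1 : ℕ) : ℂ) '' (E ∩ S1 C) := by
    intro z hz
    obtain ⟨q, hq⟩ := exists_nat_gt (C.u z)
    refine Set.mem_iUnion.mpr ⟨q, ?_⟩
    have hc0 : ((q + 1 : ℕ) : ℂ) ≠ 0 := Nat.cast_ne_zero.mpr (Nat.succ_ne_zero q)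
    have hc : (((q + 1 : ℕ) : ℂ))⁻¹ ≠ 0 := inv_ne_zero hc0
    have hy := hcon z hz _ hc
    refine ⟨scl C.w (((q + 1 : ℕ) : ℂ))⁻¹ z, ⟨hy, hEU hy, ?_⟩, ?_⟩
    · rw [hC.uhom z (hEU hz) _ hc, norm_inv, Complex.norm_natCast]
      have hpos : (0 : ℝ) < ((q + 1 : ℕ) : ℝ) := by positivity
      rw [inv_mul_lt_iff₀ hpos, mul_one]
      push_cast
      linarith
    · rw [scl_scl, mul_inv_cancel₀ hc0, scl_one]
  refine measure_mono_null h1 (measure_iUnion_null fun q => ?_)
  exact addHaar_image_eq_zero_of_differentiableOn_of_addHaar_eq_zero volume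
    (scl_diff C.w _).differentiableOn hnull

end Pool.Agent.Helper33.KP
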