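import Pool.Agent.Helper68.KP.StR

/-! Project KP, module NFI: image of a nice filtration under an automorphism (helper33). -/

set_option autoImplicit false

namespace Pool.Agent.Helper33.KP

open Pool.Agent.Helper52.KP Pool.Agent.Helper68.KP Filter Topology DirectSum

section Abs

variable {A : Type} [CommRing A] [Algebra ℂ A]

private lemma mem_im {E : ℕ → Submodule ℂ A} {σ : ∀ k, E k →ₗ[ℂ] E k}
    {F : ℕ → ℕ → Submodule ℂ A} {k l : ℕ} {g : A} :
    g ∈ im σ F k l ↔ ∃ e : E k, (e : A) ∈ F k l ∧ (σ k e : A) = g := by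
  unfold im
  rw [Submodule.mem_map]
  rfl

variable (E : ℕ → Submodule ℂ A) [SetLike.GradedMonoid E]

/-- the homomorphism `∑ f k ↦ ∑ σ k (f k)` -/
private noncomputable def psi (σ : ∀ k, E k →ₗ[ℂ] E k)
    (h1 : (σ 0 ⟨1, SetLike.GradedOne.one_mem⟩ : A) = 1) (hσ : AU E σ) : (⨁ k, E k) →ₐ[ℂ] A :=
  DirectSum.toAlgebra ℂ (fun k => E k) (fun k => (E k).subtype ∘ₗ σ k) h1
    (fun ai aj => hσ.2 _ _ ai aj _ rfl)

private lemma psi_of (σ : ∀ k, E k →ₗ[ℂ] E k)
    (h1 : (σ 0 ⟨1, SetLike.GradedOne.one_mem⟩ : A) = 1) (hσ : AU E σ) (k : ℕ) (e : E k) :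
    psi E σ h1 hσ (DirectSum.of (fun k => E k) k e) = (σ k e : A) := by
  unfold psi
  rw [DirectSum.toAlgebra_apply]
  exact DirectSum.toSemiring_of _ _ _ _ _

private lemma psi_lmap (σ : ∀ k, E k →ₗ[ℂ] E k)
    (h1 : (σ 0 ⟨1, SetLike.GradedOne.one_mem⟩ : A) = 1) (hσ : AU E σ) (x : ⨁ k, E k) :
    psi E σ h1 hσ x = DirectSum.coeAlgHom E (DirectSum.lmap σ x) := by
  induction x using DirectSum.induction_on with
  | zero => rw [map_zero, map_zero, map_zero]
  | of k e =>
    rw [psi_of, ← DirectSum.lof_eq_of ℂ, DirectSum.lmap_lof, DirectSum.lof_eq_of,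
      DirectSum.coeAlgHom_of]
  | add x y hx hy => rw [map_add, map_add, map_add, hx, hy]

private lemma psi_inj (σ : ∀ k, E k →ₗ[ℂ] E k)
    (h1 : (σ 0 ⟨1, SetLike.GradedOne.one_mem⟩ : A) = 1) (hσ : AU E σ)
    (hE : Function.Injective (DirectSum.coeAlgHom E)) :
    Function.Injective (psi E σ h1 hσ) := by
  intro x y hxy
  rw [psi_lmap, psi_lmap] at hxy
  exact (DirectSum.lmap_injective σ).mpr (fun k => (hσ.1 k).1) (hE hxy)

private lemma normal_transfer (σ : ∀ k, E k →ₗ[ℂ] E k)
    (h1 : (σ 0 ⟨1, SetLike.GradedOne.one_mem⟩ : A) = 1) (hσ : AU E σ)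
    (hE : Function.Injective (DirectSum.coeAlgHom E)) (F : ℕ → ℕ → Submodule ℂ A)
    (hF : ∀ k l, F k l ≤ E k)
    (hn : IsIntegrallyClosed (Algebra.adjoin ℂ {b : Polynomial A |
      ∃ k l f, f ∈ F k l ∧ b = Polynomial.C f * Polynomial.X ^ l})) :
    IsIntegrallyClosed (Algebra.adjoin ℂ {b : Polynomial A |
      ∃ k l f, f ∈ im σ F k l ∧ b = Polynomial.C f * Polynomial.X ^ l}) := by
  classical
  set T : Set (Polynomial (⨁ k, E k)) := {b | ∃ k l, ∃ e : E k, (e : A) ∈ F k l ∧
    b = Polynomial.C (DirectSum.of (fun k => E k) k e) * Polynomial.X ^ l} with hT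
  have hi1 : Function.Injective (Polynomial.mapAlgHom (DirectSum.coeAlgHom E)) := by
    rw [Polynomial.coe_mapAlgHom]
    exact Polynomial.map_injective _ hE
  have hi2 : Function.Injective (Polynomial.mapAlgHom (psi E σ h1 hσ)) := by
    rw [Polynomial.coe_mapAlgHom]
    exact Polynomial.map_injective _ (psi_inj E σ h1 hσ hE)
  have e1 : Algebra.adjoin ℂ {b : Polynomial A |
      ∃ k l f, f ∈ F k l ∧ b = Polynomial.C f * Polynomial.X ^ l} =
      (Algebra.adjoin ℂ T).map (Polynomial.mapAlgHom (DirectSum.coeAlgHom E)) := by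
    rw [AlgHom.map_adjoin]
    congr 1
    ext b
    constructor
    · rintro ⟨k, l, f, hf, rfl⟩
      refine ⟨Polynomial.C (DirectSum.of (fun k => E k) k ⟨f, hF k l hf⟩) * Polynomial.X ^ l,
        ⟨k, l, ⟨f, hF k l hf⟩, hf, rfl⟩, ?_⟩
      rw [Polynomial.coe_mapAlgHom, Polynomial.map_mul, Polynomial.map_pow, Polynomial.map_X,
        Polynomial.map_C]
      congr 2
      exact DirectSum.coeAlgHom_of E k _
    · rintro ⟨_, ⟨k, l, e, he, rfl⟩, rfl⟩
      refine ⟨k, l, e, he, ?_⟩
      rw [Polynomial.coe_mapAlgHom, Polynomial.map_mul, Polynomial.map_pow, Polynomial.map_X,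
        Polynomial.map_C]
      congr 2
      exact DirectSum.coeAlgHom_of E k _
  have e2 : Algebra.adjoin ℂ {b : Polynomial A |
      ∃ k l f, f ∈ im σ F k l ∧ b = Polynomial.C f * Polynomial.X ^ l} =
      (Algebra.adjoin ℂ T).map (Polynomial.mapAlgHom (psi E σ h1 hσ)) := by
    rw [AlgHom.map_adjoin]
    congr 1
    ext b
    constructor
    · rintro ⟨k, l, f, hf, rfl⟩
      obtain ⟨e, he, rfl⟩ := mem_im.mp hf
      refine ⟨Polynomial.C (DirectSum.of (fun k => E k) k e) * Polynomial.X ^ l,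
        ⟨k, l, e, he, rfl⟩, ?_⟩
      rw [Polynomial.coe_mapAlgHom, Polynomial.map_mul, Polynomial.map_pow, Polynomial.map_X,
        Polynomial.map_C]
      congr 2
      exact psi_of E σ h1 hσ k e
    · rintro ⟨_, ⟨k, l, e, he, rfl⟩, rfl⟩
      refine ⟨k, l, σ k e, mem_im.mpr ⟨e, he, rfl⟩, ?_⟩
      rw [Polynomial.coe_mapAlgHom, Polynomial.map_mul, Polynomial.map_pow, Polynomial.map_X,
        Polynomial.map_C]
      congr 2
      exact psi_of E σ h1 hσ k e
  rw [e2]
  rw [e1] at hn
  exact @IsIntegrallyClosed.of_equiv _ _ _ _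
    (((Subalgebra.equivMapOfInjective _ _ hi1).symm.trans
      (Subalgebra.equivMapOfInjective _ _ hi2)).toRingEquiv) hn

end Abs

/-- independence of the graded pieces -/
private lemma coe_inj (C : Cone) (hC : Good C) (r : ℕ) (hr : 0 < r)
    [SetLike.GradedMonoid (EE C r)] : Function.Injective (DirectSum.coeAlgHom (EE C r)) := by
  classical
  rw [injective_iff_map_eq_zero]
  intro x hx
  have hnr : 0 < C.n * r := Nat.mul_pos hC.hn hr
  refine DFinsupp.ext fun k => ?_
  apply Subtype.ext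
  apply MvPolynomial.funext
  intro z
  set θ : (⨁ k, EE C r k) →ₗ[ℂ] Polynomial ℂ := DirectSum.toModule ℂ ℕ (Polynomial ℂ)
    (fun k => (Polynomial.monomial (C.n * r * k)) ∘ₗ (MvPolynomial.aeval z).toLinearMap ∘ₗ
      (EE C r k).subtype) with hθ
  have hof : ∀ (k : ℕ) (e : EE C r k), θ (DirectSum.of (fun k => EE C r k) k e) =
      Polynomial.monomial (C.n * r * k) (MvPolynomial.eval z (e : MvPolynomial (Fin C.m) ℂ)) := by
    intro k e
    rw [hθ, ← DirectSum.lof_eq_of ℂ, DirectSum.toModule_lof]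
    rfl
  have h1 : ∀ (c : ℂ) (x : ⨁ k, EE C r k), (θ x).eval c =
      MvPolynomial.eval (scl C.w c z) (DirectSum.coeAlgHom (EE C r) x) := by
    intro c x
    induction x using DirectSum.induction_on with
    | zero => rw [map_zero, map_zero, map_zero, Polynomial.eval_zero]
    | of k e =>
      rw [hof, DirectSum.coeAlgHom_of, Polynomial.eval_monomial]
      have := hC.hom (C.n * r * k) e e.2 c z
      rw [ev, ev] at this
      rw [this]
      ring
    | add x y hx hy => rw [map_add, map_add, map_add, Polynomial.eval_add, hx, hy]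
  have h2 : ∀ (x : ⨁ k, EE C r k) (k : ℕ), (θ x).coeff (C.n * r * k) =
      MvPolynomial.eval z (x k : MvPolynomial (Fin C.m) ℂ) := by
    intro x k
    induction x using DirectSum.induction_on with
    | zero => rw [map_zero, Polynomial.coeff_zero]; simp
    | of j e =>
      rw [hof, Polynomial.coeff_monomial]
      by_cases h : j = k
      · subst h
        rw [if_pos rfl, DirectSum.of_eq_same]
      · rw [if_neg (fun h' => h (Nat.eq_of_mul_eq_mul_left hnr h')), DirectSum.of_eq_of_ne _ _ _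
          (Ne.symm h)]
        simp
    | add x y hx hy =>
      rw [map_add, Polynomial.coeff_add, hx, hy, DirectSum.add_apply]
      simp
  have h3 : θ x = 0 := by
    apply Polynomial.funext
    intro c
    rw [h1, hx, map_zero, Polynomial.eval_zero]
  have h4 := h2 x k
  rw [h3, Polynomial.coeff_zero] at h4
  rw [← h4]
  simp

theorem hNFI : StNFI := by
  intro C hC r F hF σ hσ
  have hE0 : ∀ k, F k 0 = EE C r k := hF.zero
  have hanti : ∀ k l, F k l ≤ EE C r k := by
    intro k l
    induction l with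
    | zero => rw [hE0]
    | succ l ih => exact (hF.anti k l).trans ih
  have hG : SetLike.GradedMonoid (EE C r) :=
    { one_mem := by
        show (1 : MvPolynomial (Fin C.m) ℂ) ∈ C.R (C.n * r * 0)
        rw [mul_zero]
        exact hC.one
      mul_mem := by
        intro i j f f' hf hf'
        show f * f' ∈ C.R (C.n * r * (i + j))
        rw [mul_add]
        exact hC.mul _ _ _ _ hf hf' }
  have h1 : (σ 0 ⟨1, SetLike.GradedOne.one_mem⟩ : MvPolynomial (Fin C.m) ℂ) = 1 := by
    set o : EE C r 0 := ⟨1, SetLike.GradedOne.one_mem⟩ with ho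
    have hmul := hσ.2 0 0 o o o (by rw [ho]; simp)
    have hne : (σ 0 o : MvPolynomial (Fin C.m) ℂ) ≠ 0 := by
      intro h
      have h' : σ 0 o = σ 0 0 := by
        rw [map_zero]
        exact Subtype.ext h
      have h'' := congrArg Subtype.val ((hσ.1 0).1 h')
      rw [ho] at h''
      exact one_ne_zero h''
    have hmul' : (σ 0 o : MvPolynomial (Fin C.m) ℂ) =
      (σ 0 o : MvPolynomial (Fin C.m) ℂ) * (σ 0 o : MvPolynomial (Fin C.m) ℂ) := hmul
    exact (mul_eq_left₀ hne).mp hmul'.symm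
  have hfull : ∀ k l, F k l = EE C r k → im σ F k l = EE C r k := by
    intro k l h
    ext g
    rw [mem_im]
    constructor
    · rintro ⟨e, -, rfl⟩
      exact (σ k e).2
    · intro hg
      obtain ⟨e, he⟩ := (hσ.1 k).2 ⟨g, hg⟩
      exact ⟨e, by rw [h]; exact e.2, by rw [he]⟩
  have hbot : ∀ k l, F k l = ⊥ → im σ F k l = ⊥ := by
    intro k l h
    rw [eq_bot_iff]
    intro g hg
    obtain ⟨e, he, rfl⟩ := mem_im.mp hg
    rw [h, Submodule.mem_bot] at he
    have : e = 0 := Subtype.ext he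
    rw [this, map_zero]
    exact Submodule.zero_mem _
  have hmulim : ∀ k l k' l' f f', f ∈ im σ F k l → f' ∈ im σ F k' l' →
      f * f' ∈ im σ F (k + k') (l + l') := by
    intro k l k' l' f f' hf hf'
    obtain ⟨e, he, rfl⟩ := mem_im.mp hf
    obtain ⟨e', he', rfl⟩ := mem_im.mp hf'
    have hm := hF.mul k l k' l' _ _ he he'
    refine mem_im.mpr ⟨⟨(e : MvPolynomial (Fin C.m) ℂ) * e', hanti _ _ hm⟩, hm, ?_⟩
    exact hσ.2 k k' e e' _ rfl
  refine ⟨?_, ?_⟩
  · refine { hr := hF.hr, zero := fun k => hfull k 0 (hE0 k), one := ?_, anti := ?_, mul := hmulim,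
             sep0 := hbot 0 1 hF.sep0, sep := ?_, gen := ?_, normal := ?_ }
    · have h : F 1 1 = EE C r 1 := by
        rw [hF.one]
        show C.R (C.n * r) = C.R (C.n * r * 1)
        rw [mul_one]
      rw [hfull 1 1 h]
      show C.R (C.n * r * 1) = C.R (C.n * r)
      rw [mul_one]
    · intro k l g hg
      obtain ⟨e, he, rfl⟩ := mem_im.mp hg
      exact mem_im.mpr ⟨e, hF.anti k l he, rfl⟩
    · obtain ⟨l, hl⟩ := hF.sep
      exact ⟨l, hbot 1 l hl⟩
    · intro k l hk
      apply le_antisymm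
      · intro g hg
        obtain ⟨e, he, rfl⟩ := mem_im.mp hg
        have key : ∀ x (hx : x ∈ Submodule.span ℂ
            {b | ∃ i j f f', i + j = l ∧ f ∈ F k i ∧ f' ∈ F 1 j ∧ b = f * f'}),
            ∀ hx' : x ∈ EE C r (k + 1), (σ (k + 1) ⟨x, hx'⟩ : MvPolynomial (Fin C.m) ℂ) ∈
            Submodule.span ℂ {b | ∃ i j f f', i + j = l ∧ f ∈ im σ F k i ∧ f' ∈ im σ F 1 j ∧
              b = f * f'} := by
          intro x hx
          have hle : Submodule.span ℂ
            {b | ∃ i j f f', i + j = l ∧ f ∈ F k i ∧ f' ∈ F 1 j ∧ b = f * f'} ≤ EE C r (k + 1) := by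
            rw [← hF.gen k l hk]
            exact hanti _ _
          induction hx using Submodule.span_induction with
          | mem x h =>
            intro hx'
            obtain ⟨i, j, f, f', hij, hf, hf', rfl⟩ := h
            apply Submodule.subset_span
            refine ⟨i, j, σ k ⟨f, hanti _ _ hf⟩, σ 1 ⟨f', hanti _ _ hf'⟩, hij,
              mem_im.mpr ⟨_, hf, rfl⟩, mem_im.mpr ⟨_, hf', rfl⟩, ?_⟩
            exact hσ.2 k 1 ⟨f, hanti _ _ hf⟩ ⟨f', hanti _ _ hf'⟩ _ rfl
          | zero =>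
            intro hx'
            have : (⟨0, hx'⟩ : EE C r (k + 1)) = 0 := rfl
            rw [this, map_zero]
            exact Submodule.zero_mem _
          | add x y hx hy ihx ihy =>
            intro hx'
            have : (⟨x + y, hx'⟩ : EE C r (k + 1)) = ⟨x, hle hx⟩ + ⟨y, hle hy⟩ := rfl
            rw [this, map_add]
            exact Submodule.add_mem _ (ihx _) (ihy _)
          | smul a x hx ihx =>
            intro hx'
            have : (⟨a • x, hx'⟩ : EE C r (k + 1)) = a • ⟨x, hle hx⟩ := rfl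
            rw [this, map_smul]
            exact Submodule.smul_mem _ _ (ihx _)
        have he' := he
        rw [hF.gen k l hk] at he'
        exact key _ he' e.2
      · rw [Submodule.span_le]
        rintro _ ⟨i, j, f, f', hij, hf, hf', rfl⟩
        rw [← hij]
        exact hmulim k i 1 j f f' hf hf'
    · exact normal_transfer (EE C r) σ h1 hσ (coe_inj C hC r hF.hr) F hanti hF.normal
  · intro k l
    have hinj : Function.Injective ((EE C r k).subtype ∘ₗ σ k) := by
      rw [LinearMap.coe_comp]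
      exact (Submodule.injective_subtype _).comp (hσ.1 k).1
    have e1 := (Submodule.equivMapOfInjective ((EE C r k).subtype ∘ₗ σ k) hinj
      (Submodule.comap (EE C r k).subtype (F k l))).finrank_eq
    have e2 := (Submodule.comapSubtypeEquivOfLe (hanti k l)).finrank_eq
    unfold im
    rw [← e1, e2]

end Pool.Agent.Helper33.KP
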